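import Mathlib
import Pool.Agent.H28.AN.P6

set_option autoImplicit false

namespace Pool.Agent.Results.MP_85a523_an.PermutationDiagonalAlgebra

open Pool.Agent.H28.AN

/-- Let `T` be a weighted partial permutation of a Hilbert basis `e` (a countable direct sum of
unilateral, bilateral, backward or truncated weighted shifts and weighted cycles) with trace class
self-commutator, and let `A` be in the star algebra generated by `T` and all the operators `M`
which are diagonal in `e` and whose commutator with `T` is trace class. Then every operator `T'`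
such that `T' - A` is Hilbert-Schmidt has a partner `S` with trace class self-commutator such that
the direct sum of `T'` and `S` is a normal operator plus a Hilbert-Schmidt operator. -/
theorem result :
    ∀ (H : Type) [NormedAddCommGroup H] [InnerProductSpace ℂ H] [CompleteSpace H]
      (HS TC : (H →L[ℂ] H) → Prop),
      (∀ A : H →L[ℂ] H, HS A ↔
        ∃ (ι : Type) (b : HilbertBasis ι ℂ H), Summable (fun i => ‖A (b i)‖ ^ 2)) →
      (∀ A : H →L[ℂ] H, TC A ↔
        ∃ B C : H →L[ℂ] H, HS B ∧ HS C ∧ A = B * C) →
      ∀ (D : Type) [Countable D] (e : HilbertBasis D ℂ H) (c : D → ℂ) (π : D → D)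
        (T : H →L[ℂ] H),
        (∀ d, T (e d) = c d • e (π d)) →
        (∀ i j, c i ≠ 0 → c j ≠ 0 → π i = π j → i = j) →
        TC (star T * T - T * star T) →
        ∀ A ∈ StarAlgebra.adjoin ℂ (insert T
          {M : H →L[ℂ] H | (∃ ν : D → ℂ, ∀ d, M (e d) = ν d • e d) ∧ TC (M * T - T * M)}),
        ∀ T' : H →L[ℂ] H, HS (T' - A) →
        ∃ S : H →L[ℂ] H, TC (star S * S - S * star S) ∧
          ∃ N11 N12 N21 N22 : H →L[ℂ] H,
            star N11 * N11 + star N21 * N21 = N11 * star N11 + N12 * star N12 ∧
            star N11 * N12 + star N21 * N22 = N11 * star N21 + N12 * star N22 ∧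
            star N12 * N11 + star N22 * N21 = N21 * star N11 + N22 * star N12 ∧
            star N12 * N12 + star N22 * N22 = N21 * star N21 + N22 * star N22 ∧
            HS (T' - N11) ∧ HS N12 ∧ HS N21 ∧ HS (S - N22) := by
  intro H _ _ _ HS TC hHS hTC D _ e c π T hT hinj hTT A hA T' hT'
  exact final_set H HS TC hHS hTC D e c π T hT hinj hTT A hA T' hT'

end Pool.Agent.Results.MP_85a523_an.PermutationDiagonalAlgebra
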